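import Pool.Agent.D0H49.LI.Fin

/-!
# Near relations between `1`, `e` and `π` are doubly exponentially sparse
-/

set_option autoImplicit false

namespace Pool.Agent.Results.MP_58e087_nt.SparseRelations

open Real

/-- the height of an integer vector -/
noncomputable def height (a b c : ℤ) : ℝ := max |(a : ℝ)| (max |(b : ℝ)| |(c : ℝ)|)

/-- For all real `w > 3` and `1 < ρ < (w - 1) / 2` the number of primitive integer vectors
`(a, b, c)` with `c > 0`, height at most `Y` and `|a + b e + c π| ≤ height ^ (-w)` is at most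
`log log Y / log ρ + C`. -/
theorem result (w ρ : ℝ) (hρ : 1 < ρ) (hw : ρ < (w - 1) / 2) :
    ∃ C : ℝ, ∀ Y : ℝ, 3 ≤ Y →
      {x : ℤ × ℤ × ℤ | 0 < x.2.2 ∧ (∀ d : ℤ, d ∣ x.1 → d ∣ x.2.1 → d ∣ x.2.2 → IsUnit d) ∧
        |(x.1 : ℝ) + x.2.1 * exp 1 + x.2.2 * π| ≤ height x.1 x.2.1 x.2.2 ^ (-w) ∧
        height x.1 x.2.1 x.2.2 ≤ Y}.Finite ∧
      ({x : ℤ × ℤ × ℤ | 0 < x.2.2 ∧ (∀ d : ℤ, d ∣ x.1 → d ∣ x.2.1 → d ∣ x.2.2 → IsUnit d) ∧
        |(x.1 : ℝ) + x.2.1 * exp 1 + x.2.2 * π| ≤ height x.1 x.2.1 x.2.2 ^ (-w) ∧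
        height x.1 x.2.1 x.2.2 ≤ Y}.ncard : ℝ) ≤ log (log Y) / log ρ + C := by
  obtain ⟨C, hC⟩ := D0H49.LI.near_card D0H49.LI.msr_e π hρ hw
  exact ⟨C, fun Y hY => ⟨D0H49.LI.Near_finite (exp 1) π w Y, hC Y hY⟩⟩

end Pool.Agent.Results.MP_58e087_nt.SparseRelations
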